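import Pool.Agent.LCL89.BD.Defs

set_option autoImplicit false

/-!
# Borel determinacy: statements of the modules
-/

namespace Pool.Agent.LCL89.BD

open scoped Topology

/-- OG (open games, positional). If the opponent of `p` cannot avoid `U` for ever from `s` inside the
arena `E`, then the positional rule `g` of player `p` forces the play to meet `U`. -/
def StmtOG : Prop :=
  ∀ {A : Type} [Nonempty A] (E : Set (List A)) (p : ℕ) (U : Set (List A)),
    ∃ g : List A → A,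
      (∀ s ∈ E, s.length % 2 = p → (∃ a, a :: s ∈ E) → g s :: s ∈ E) ∧
      ∀ s ∈ E, ¬ Avoid E p U s → ∀ (x : ℕ → A) (m : ℕ), pos x m = s →
        (∀ n, m ≤ n → pos x n ∈ E) → (∀ n, m ≤ n → n % 2 = p → x n = g (pos x n)) →
        ∃ n, m ≤ n ∧ pos x n ∈ U

/-- LT: the legal positions of the covering game form a pruned tree. -/
def StmtLegalTree : Prop :=
  ∀ {A : Type} (T : Tree A) (C : Set (List A)), ClosedTree T C → ∀ K : ℕ, K % 2 = 0 →
    ∃ T' : Tree (A × Info A), T'.car = {s | Legal T C K s}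

/-- LC: the closed set becomes clopen. -/
def StmtLegalClopen : Prop :=
  ∀ {A : Type} (T : Tree A) (C : Set (List A)), ClosedTree T C → ∀ K : ℕ, K % 2 = 0 →
    ∀ T' : Tree (A × Info A), T'.car = {s | Legal T C K s} →
      IsClopenIn T' {y | ∀ n, pos (fun i => (y i).1) n ∈ C}

/-- transfer of strategies of player `p` (used for `p = 0` and for `p = 1`) -/
def StmtTransfer (p : ℕ) : Prop :=
  ∀ {A : Type} (T : Tree A) (C : Set (List A)), ClosedTree T C → ∀ K : ℕ, K % 2 = 0 →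
    ∀ T' : Tree (A × Info A), T'.car = {s | Legal T C K s} →
      ∃ φ : Strat T' p → Strat T p,
        (∀ (n : ℕ) (σ τ : Strat T' p), Agree n σ τ → Agree n (φ σ) (φ τ)) ∧
        (∀ σ : Strat T' p, ∀ s ∈ T'.car, s.length < K → s.length % 2 = p →
          (σ.mv s).1 = (φ σ).mv (s.map Prod.fst)) ∧
        (∀ σ : Strat T' p, ∀ x ∈ Body T, Follows (φ σ) x →
          ∃ y ∈ Body T', Follows σ y ∧ ∀ n, (y n).1 = x n)

/-- CL: every closed set can be unravelled. -/
def StmtClosed : Prop :=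
  ∀ {A : Type} (T : Tree A) (C : Set (List A)), ClosedTree T C → ∀ k : ℕ,
    ∃ (G : Gm) (c : Cov k G.T T), IsClopenIn G.T {y | ∀ n, pos (fun i => c.f (y i)) n ∈ C}

/-- CO: composition of coverings. -/
def StmtComp : Prop :=
  ∀ {A B C : Type} (k : ℕ) (T'' : Tree A) (T' : Tree B) (T : Tree C) (c' : Cov k T'' T')
    (c : Cov k T' T), ∃ d : Cov k T'' T, d.f = c.f ∘ c'.f

/-- WK: weakening of the level. -/
def StmtWeaken : Prop :=
  ∀ {A B : Type} (k l : ℕ) (T' : Tree A) (T : Tree B) (c : Cov k T' T), l ≤ k →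
    ∃ d : Cov l T' T, d.f = c.f

/-- LI: inverse limits of coverings. -/
def StmtLimit : Prop :=
  ∀ (k : ℕ) (G : ℕ → Gm) (c : ∀ i, Cov (k + i) (G (i + 1)).T (G i).T),
    ∃ (L : Gm) (d : ∀ i, Cov (k + i) L.T (G i).T),
      ∀ i a, (c i).f ((d (i + 1)).f a) = (d i).f a

/-- `ψ` is continuous on the body of `T` (product of discrete topologies) -/
def ContOn {A A₀ : Type} (T : Tree A) (ψ : (ℕ → A) → (ℕ → A₀)) : Prop :=
  ∀ x ∈ Body T, ∀ n, ∃ m, ∀ y ∈ Body T, pos y m = pos x m → ψ y n = ψ x n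

/-- all continuous preimages of `W` can be unravelled -/
def Unr {A₀ : Type} (W : Set (ℕ → A₀)) : Prop :=
  ∀ (A : Type) (T : Tree A) (ψ : (ℕ → A) → (ℕ → A₀)), ContOn T ψ → ∀ k : ℕ,
    ∃ (G : Gm) (c : Cov k G.T T), IsClopenIn G.T {y | ψ (fun n => c.f (y n)) ∈ W}

/-- UC/UU/UO: closure properties of `Unr`. -/
def StmtUnrCompl : Prop := ∀ {A₀ : Type} (W : Set (ℕ → A₀)), Unr W → Unr Wᶜ

def StmtUnrUnion : Prop :=
  ∀ {A₀ : Type} (W : ℕ → Set (ℕ → A₀)), (∀ i, Unr (W i)) → Unr (⋃ i, W i)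

def StmtUnrOpen : Prop := ∀ (W : Set (ℕ → ℕ)), IsOpen W → Unr W

/-- DC: clopen games are determined (also open games). -/
def StmtOpenDet : Prop :=
  ∀ {A : Type} (T : Tree A) (X : Set (ℕ → A)), IsOpenIn T X → Determined T X

/-- BD: Borel determinacy on `ℕ`. -/
def StmtBD : Prop := ∀ (T : Tree ℕ) (W : Set (ℕ → ℕ)), MeasurableSet W → Determined T W

/-- CD: causal form of Borel determinacy. -/
def StmtCausal : Prop :=
  ∀ (M N : ℕ → Type) [∀ n, Countable (M n)] [∀ n, Nonempty (M n)] [∀ n, Countable (N n)]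
    [∀ n, Nonempty (N n)] [∀ n, TopologicalSpace (M n)] [∀ n, DiscreteTopology (M n)]
    [∀ n, TopologicalSpace (N n)] [∀ n, DiscreteTopology (N n)]
    (W : Set ((∀ n, M n) × (∀ n, N n))), @MeasurableSet _ (borel _) W →
    (∃ F : (∀ n, M n) → (∀ n, N n),
        (∀ n p p', (∀ i ≤ n, p i = p' i) → F p n = F p' n) ∧ ∀ p, (p, F p) ∈ W) ∨
    (∃ H : (∀ n, N n) → (∀ n, M n),
        (∀ n q q', (∀ i < n, q i = q' i) → H q n = H q' n) ∧ ∀ q, (H q, q) ∉ W)

end Pool.Agent.LCL89.BD
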