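import Mathlib

set_option autoImplicit false

/-!
# Borel determinacy: trees, strategies, coverings

Positions are REVERSED lists: the head of the list is the latest move.
-/

namespace Pool.Agent.LCL89.BD

/-- position after `n` moves of the play `x` (latest move first) -/
def pos {A : Type} (x : ℕ → A) : ℕ → List A
  | 0 => []
  | n + 1 => x n :: pos x n

/-- a nonempty pruned tree of positions -/
structure Tree (A : Type) where
  car : Set (List A)
  nil_mem : [] ∈ car
  tail_mem : ∀ (a : A) (s : List A), a :: s ∈ car → s ∈ car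
  pruned : ∀ s ∈ car, ∃ a, a :: s ∈ car

/-- infinite plays in the tree -/
def Body {A : Type} (T : Tree A) : Set (ℕ → A) := {x | ∀ n, pos x n ∈ T.car}

/-- `X` is relatively open in the body of `T` -/
def IsOpenIn {A : Type} (T : Tree A) (X : Set (ℕ → A)) : Prop :=
  ∀ x ∈ Body T, x ∈ X → ∃ n, ∀ y ∈ Body T, pos y n = pos x n → y ∈ X

/-- `X` is relatively clopen in the body of `T` -/
def IsClopenIn {A : Type} (T : Tree A) (X : Set (ℕ → A)) : Prop :=
  IsOpenIn T X ∧ IsOpenIn T Xᶜ

/-- strategy of player `p` (`p = 0` or `p = 1`; player `p` moves at positions of length `≡ p`) -/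
structure Strat {A : Type} (T : Tree A) (p : ℕ) where
  mv : List A → A
  legal : ∀ s ∈ T.car, s.length % 2 = p → mv s :: s ∈ T.car

/-- the play `x` follows the strategy -/
def Follows {A : Type} {T : Tree A} {p : ℕ} (σ : Strat T p) (x : ℕ → A) : Prop :=
  ∀ n, n % 2 = p → x n = σ.mv (pos x n)

/-- two strategies agree on positions of length `< n` -/
def Agree {A : Type} {T : Tree A} {p : ℕ} (n : ℕ) (σ τ : Strat T p) : Prop :=
  ∀ s ∈ T.car, s.length < n → s.length % 2 = p → σ.mv s = τ.mv s

/-- the game on `T` with payoff `X` for player `0` is determined -/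
def Determined {A : Type} (T : Tree A) (X : Set (ℕ → A)) : Prop :=
  (∃ σ : Strat T 0, ∀ x ∈ Body T, Follows σ x → x ∈ X) ∨
    (∃ σ : Strat T 1, ∀ x ∈ Body T, Follows σ x → x ∉ X)

/-- a covering of `T` by `T'` which is an isomorphism on positions of length `≤ k` -/
structure Cov {A' A : Type} (k : ℕ) (T' : Tree A') (T : Tree A) where
  /-- the letterwise projection -/
  f : A' → A
  map_mem : ∀ s ∈ T'.car, s.map f ∈ T.car
  inj : ∀ s ∈ T'.car, ∀ t ∈ T'.car, s.length ≤ k → s.map f = t.map f → s = t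
  surj : ∀ s ∈ T.car, s.length ≤ k → ∃ t ∈ T'.car, t.map f = s
  /-- transfer of strategies -/
  φ : ∀ {p : ℕ}, Strat T' p → Strat T p
  lip : ∀ {p : ℕ} (n : ℕ) (σ τ : Strat T' p), Agree n σ τ → Agree n (φ σ) (φ τ)
  low : ∀ {p : ℕ} (σ : Strat T' p), ∀ s ∈ T'.car, s.length < k → s.length % 2 = p →
    f (σ.mv s) = (φ σ).mv (s.map f)
  lift : ∀ {p : ℕ} (σ : Strat T' p), ∀ x ∈ Body T, Follows (φ σ) x →
    ∃ y ∈ Body T', Follows σ y ∧ ∀ n, f (y n) = x n

/-- a game: alphabet and tree -/
structure Gm where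
  A : Type
  T : Tree A

/-- the greatest set of positions of the arena `E` from which the opponent of player `p` can avoid
`U` for ever -/
def Avoid {A : Type} (E : Set (List A)) (p : ℕ) (U : Set (List A)) (s : List A) : Prop :=
  ∃ V : Set (List A), s ∈ V ∧ V ⊆ E ∧ (∀ q ∈ V, q ∉ U) ∧
    ∀ q ∈ V, (q.length % 2 = p → ∀ a, a :: q ∈ E → a :: q ∈ V) ∧
      (q.length % 2 ≠ p → ∃ a, a :: q ∈ V)

/-! ### The auxiliary game which unravels a closed set -/

/-- auxiliary information carried by the letters of the covering game -/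
inductive Info (A : Type)
  | none : Info A
  | mid (S : Set (List A)) : Info A
  | stay (S S' : Set (List A)) : Info A
  | exit (S : Set (List A)) (w : List A) : Info A

/-- quasi-strategy of player `0` from the position `p` -/
structure Quasi0 {A : Type} (T : Tree A) (p : List A) (S : Set (List A)) : Prop where
  root : p ∈ S
  sub : ∀ q ∈ S, q ∈ T.car ∧ p <:+ q
  own : ∀ q ∈ S, q.length % 2 = 0 → ∃ a, a :: q ∈ S
  opp : ∀ q ∈ S, q.length % 2 = 1 → ∀ a, a :: q ∈ T.car → a :: q ∈ S

/-- quasi-strategy of player `1` inside `S` from the position `p`, staying in `C` -/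
structure Quasi1 {A : Type} (C : Set (List A)) (S : Set (List A)) (p : List A)
    (S' : Set (List A)) : Prop where
  root : p ∈ S'
  sub : ∀ q ∈ S', q ∈ S ∧ q ∈ C ∧ p <:+ q
  opp : ∀ q ∈ S', q.length % 2 = 0 → ∀ a, a :: q ∈ S → a :: q ∈ S'
  own : ∀ q ∈ S', q.length % 2 = 1 → ∃ a, a :: q ∈ S'

/-- information of the latest letter -/
def lastInfo {A : Type} : List (A × Info A) → Info A
  | [] => Info.none
  | l :: _ => l.2

/-- admissible new information `i` after information `i'`; `n` = length of the old position,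
`q` = new position in the base game -/
def StepOK {A : Type} (T : Tree A) (C : Set (List A)) (K : ℕ) (n : ℕ) (q : List A)
    (i' i : Info A) : Prop :=
  (n < K ∧ i = Info.none) ∨
  (n = K ∧ ∃ S, i = Info.mid S ∧ Quasi0 T q S) ∨
  (n = K + 1 ∧ ∃ S, i' = Info.mid S ∧
    ((∃ S', i = Info.stay S S' ∧ Quasi1 C S q S') ∨
      (∃ w, i = Info.exit S w ∧ w ∈ S ∧ q <:+ w ∧ w ∉ C))) ∨
  (K + 1 < n ∧ i = i' ∧
    ((∃ S S', i = Info.stay S S' ∧ q ∈ S') ∨ (∃ S w, i = Info.exit S w ∧ (q <:+ w ∨ w <:+ q))))

/-- legal positions of the covering game -/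
def Legal {A : Type} (T : Tree A) (C : Set (List A)) (K : ℕ) : List (A × Info A) → Prop
  | [] => True
  | l :: s => Legal T C K s ∧ (l.1 :: s.map Prod.fst) ∈ T.car ∧
      StepOK T C K s.length (l.1 :: s.map Prod.fst) (lastInfo s) l.2

/-- `C` is the tree of a closed set: prefix closed subset of `T` -/
structure ClosedTree {A : Type} (T : Tree A) (C : Set (List A)) : Prop where
  sub : C ⊆ T.car
  tail_mem : ∀ (a : A) (s : List A), a :: s ∈ C → s ∈ C

end Pool.Agent.LCL89.BD
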